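import Pool.Agent.Work.MP_a8fbd7_nt.OX.SQ.Draft
import Pool.Agent.Work.MP_af97f8_nt.SquareGaps

/-!
# MP_af97f8_nt: the gaps at the points `n ^ 2 - n`, `n ^ 2`, `n ^ 2 + n`, almost all `n`

A gap between consecutive primes `p < q` with `√q - √p > 1 / 2` (a little more than that) contains one
of the numbers `n ^ 2`, `n ^ 2 + n`.  For almost all `n`, with a power saving, the gaps which contain
these numbers satisfy `√q - √p ≤ 2 n ^ (θ - 1)`, and the primes are regularly distributed to the left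
and to the right of these numbers from the scale `n ^ θ` on.  The statement uses no definition of ours.
-/

set_option autoImplicit false

namespace Pool.Agent.Results.MP_af97f8_nt.GapsNearSquares

/-- For each of the two pairs `(θ, ψ) = (3 / 4, 39 / 40)` and `(θ, ψ) = (73 / 100, 99 / 100)` there is
a set `E` of natural numbers, with at most `N ^ ψ` elements in `[1, N]` for every `N`, such that for
every `ε > 0`, all sufficiently large `n` outside `E` and `c = n ^ 2 - n`, `n ^ 2`, `n ^ 2 + n`: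
consecutive primes `p ≤ c < q` satisfy `√q - √p ≤ 2 n ^ (θ - 1)`, and for all real `y` with
`n ^ θ ≤ y ≤ n` the numbers of primes in `(c, c + y]` and in `(c - y, c]`, divided by `y / (2 log n)`,
differ from `1` by less than `ε`. -/
theorem result : ∀ θ ψ : ℝ, (θ = 3 / 4 ∧ ψ = 39 / 40) ∨ (θ = 73 / 100 ∧ ψ = 99 / 100) →
    ∃ E : Set ℕ, (∀ N : ℕ, ((E ∩ Set.Icc 1 N).ncard : ℝ) ≤ (N : ℝ) ^ ψ) ∧
      ∀ ε : ℝ, 0 < ε → ∃ n₀ : ℕ, ∀ n : ℕ, n₀ ≤ n → n ∉ E →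
        ∀ c : ℕ, (c = n ^ 2 - n ∨ c = n ^ 2 ∨ c = n ^ 2 + n) →
          (∀ p q : ℕ, p.Prime → q.Prime → p ≤ c → c < q →
            (∀ r : ℕ, p < r → r < q → ¬ r.Prime) →
              Real.sqrt q - Real.sqrt p ≤ 2 * (n : ℝ) ^ (θ - 1)) ∧
          ∀ y : ℝ, (n : ℝ) ^ θ ≤ y → y ≤ n →
            |(Set.ncard {p : ℕ | p.Prime ∧ (c : ℝ) < p ∧ (p : ℝ) ≤ c + y} : ℝ) /
              (y / (2 * Real.log n)) - 1| < ε ∧
            |(Set.ncard {p : ℕ | p.Prime ∧ (c : ℝ) - y < p ∧ (p : ℝ) ≤ c} : ℝ) /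
              (y / (2 * Real.log n)) - 1| < ε := by
  intro θ ψ hθψ
  have hθ : θ ≤ 1 := by
    rcases hθψ with ⟨h, _⟩ | ⟨h, _⟩ <;> rw [h] <;> norm_num
  obtain ⟨E, hE, hmain⟩ := Pool.Agent.Work.MP_a8fbd7_nt.OX.SQ.Draft.result θ ψ hθψ
  refine ⟨E, hE, fun ε hε => ?_⟩
  obtain ⟨n1, h1⟩ := hmain ε hε
  obtain ⟨n2, h2⟩ := hmain (1 / 2) (by norm_num)
  refine ⟨max 3 (max n1 n2), fun n hn hnE c hc => ⟨?_, ?_⟩⟩
  · intro p q _ _ hpc hcq hpq
    have hn3 : 3 ≤ n := (le_max_left _ _).trans hn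
    have hn2 : n2 ≤ n := (le_max_right n1 n2).trans ((le_max_right 3 _).trans hn)
    have hyn : (n : ℝ) ^ θ ≤ n := by
      have h3 : (3 : ℝ) ≤ n := by exact_mod_cast hn3
      calc (n : ℝ) ^ θ ≤ (n : ℝ) ^ (1 : ℝ) := Real.rpow_le_rpow_of_exponent_le (by linarith) hθ
        _ = n := Real.rpow_one _
    obtain ⟨k1, k2⟩ := h2 n hn2 hnE ((n : ℝ) ^ θ) le_rfl hyn c hc
    obtain ⟨r, hr⟩ := Pool.Agent.Work.MP_af97f8_nt.SquareGaps.exists_of_ratio _ _ k1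
    obtain ⟨s, hs⟩ := Pool.Agent.Work.MP_af97f8_nt.SquareGaps.exists_of_ratio _ _ k2
    exact Pool.Agent.Work.MP_af97f8_nt.SquareGaps.gap n c θ hθ hn3 hc ⟨r, hr⟩ ⟨s, hs⟩ p q hpc hcq
      hpq
  · intro y hy1 hy2
    have hn1 : n1 ≤ n := (le_max_left n1 n2).trans ((le_max_right 3 _).trans hn)
    exact h1 n hn1 hnE y hy1 hy2 c hc

end Pool.Agent.Results.MP_af97f8_nt.GapsNearSquares
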