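import Pool.Agent.Work.MP_a8fbd7_nt.EX.WX.All

/-!
MP_af97f8_nt (a strong form of Andrica's conjecture): the gaps of the primes `p_n ≤ X` with `√p_(n+1) - √p_n ≥ lam` have total
length `O(X^(221/400))`.
-/

set_option autoImplicit false

namespace Pool.Agent.Results.MP_af97f8_nt.TotalLengthOfLargeGaps

/-- For every real `lam > 0` there is a constant `C` such that for every natural number `X` the sum of `p' - p` over all pairs
of consecutive primes `p < p'` with `p ≤ X` and `√p' - √p ≥ lam` is at most `C X^(221/400)`.  (`Nat.nth Nat.Prime n` is the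
prime with index `n`, counted from `n = 0`; the condition `n < X` follows from `Nat.nth Nat.Prime n ≤ X`.) -/
theorem result : ∀ lam : ℝ, 0 < lam → ∃ C : ℝ, ∀ X : ℕ,
    ∑ n ∈ (Finset.range X).filter (fun n => Nat.nth Nat.Prime n ≤ X ∧
        lam ≤ Real.sqrt (Nat.nth Nat.Prime (n + 1)) - Real.sqrt (Nat.nth Nat.Prime n)),
      ((Nat.nth Nat.Prime (n + 1) : ℝ) - Nat.nth Nat.Prime n) ≤ C * (X : ℝ) ^ (221 / 400 : ℝ) := by
  intro lam hlam
  obtain ⟨C, hC⟩ := Pool.Agent.Work.MP_a8fbd7_nt.EX.WX.gap_nth Pool.Agent.Work.MP_a8fbd7_nt.EX.WX.all_Ga lam hlam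
  refine ⟨C, fun X => (hC X _ ?_).2⟩
  rintro n ⟨h1, h2⟩
  refine ⟨h1, Pool.Agent.Work.MP_a8fbd7_nt.EX.WX.sqrt_gap (Nat.cast_nonneg _) ?_ h2 hlam.le⟩
  exact_mod_cast (Nat.nth_strictMono Nat.infinite_setOfPred_prime (Nat.lt_succ_self n)).le

end Pool.Agent.Results.MP_af97f8_nt.TotalLengthOfLargeGaps
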